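import Mathlib

set_option autoImplicit false

/-!
Two spheres with two common antipodal points, and lifts of even maps to the circle.
-/

open Set Filter Topology

namespace Pool.Agent.N489.UNI

/-- two spheres in `ℝ × ℂ × ℂ` which meet in a pair of antipodal points -/
def X : Set (ℝ × ℂ × ℂ) := {v | |v.1| + ‖v.2‖ = 1 ∧ (v.2.1 = 0 ∨ v.2.2 = 0)}

/-- two disks which meet in their common centre -/
def K : Set (ℂ × ℂ) := {p | ‖p‖ ≤ 1 ∧ (p.1 = 0 ∨ p.2 = 0)}

theorem neg_mem_X {v : ℝ × ℂ × ℂ} (hv : v ∈ X) : -v ∈ X := by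
  refine ⟨?_, ?_⟩
  · rw [Prod.fst_neg, Prod.snd_neg, abs_neg, norm_neg]; exact hv.1
  · rcases hv.2 with h | h
    · left; simp [h]
    · right; simp [h]

theorem neg_mem_K {v : ℂ × ℂ} (hv : v ∈ K) : -v ∈ K := by
  refine ⟨?_, ?_⟩
  · rw [norm_neg]; exact hv.1
  · rcases hv.2 with h | h
    · left; simp [h]
    · right; simp [h]

theorem smul_mem_K {v : ℂ × ℂ} (hv : v ∈ K) {t : ℝ} (h0 : 0 ≤ t) (h1 : t ≤ 1) : t • v ∈ K := by
  refine ⟨?_, ?_⟩
  · rw [norm_smul, Real.norm_eq_abs, abs_of_nonneg h0]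
    have := hv.1
    have h2 := norm_nonneg v
    nlinarith
  · rcases hv.2 with h | h
    · left; simp [h]
    · right; simp [h]

theorem snd_mem_K {v : ℝ × ℂ × ℂ} (hv : v ∈ X) : v.2 ∈ K :=
  ⟨by have := hv.1; have := abs_nonneg v.1; linarith, hv.2⟩

theorem kap_mem {p : ℂ × ℂ} (hp : p ∈ K) : (1 - ‖p‖, p) ∈ X := by
  refine ⟨?_, hp.2⟩
  show |1 - ‖p‖| + ‖p‖ = 1
  rw [abs_of_nonneg (by linarith [hp.1])]
  ring

/-- every map of `K` to the circle lifts to the line -/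
theorem exists_lift_K (g : K → UnitAddCircle) (hg : Continuous g) :
    ∃ G : K → ℝ, Continuous G ∧ ∀ p, ((G p : ℝ) : UnitAddCircle) = g p := by
  have cov : IsCoveringMap ((↑) : ℝ → UnitAddCircle) := AddCircle.isCoveringMap_coe (1 : ℝ)
  have hc : Continuous (fun z : unitInterval × K =>
      g ⟨(z.1 : ℝ) • (z.2 : ℂ × ℂ), smul_mem_K z.2.2 z.1.2.1 z.1.2.2⟩) := by
    apply hg.comp
    apply Continuous.subtype_mk
    fun_prop
  let H : C(unitInterval × K, UnitAddCircle) := ⟨_, hc⟩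
  have h00 : (0 : ℂ × ℂ) ∈ K := ⟨by simp, Or.inl rfl⟩
  obtain ⟨c, hcc⟩ := QuotientAddGroup.mk_surjective (g ⟨0, h00⟩)
  have H0 : ∀ a, H (0, a) = ((ContinuousMap.const K c a : ℝ) : UnitAddCircle) := by
    intro a
    have h1 : H (0, a) = g ⟨0, h00⟩ := by
      show g ⟨((0 : unitInterval) : ℝ) • (a : ℂ × ℂ), _⟩ = _
      congr 1
      apply Subtype.ext
      simp
    rw [h1, ← hcc]
    rfl
  let L := cov.liftHomotopy H (ContinuousMap.const K c) H0
  have hL := cov.liftHomotopy_lifts H (ContinuousMap.const K c) H0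
  refine ⟨fun p => L (1, p), by fun_prop, ?_⟩
  intro p
  have h2 := congrFun hL (1, p)
  rw [Function.comp_apply] at h2
  rw [h2]
  show g ⟨((1 : unitInterval) : ℝ) • (p : ℂ × ℂ), _⟩ = _
  congr 1
  apply Subtype.ext
  simp

theorem int_of_coe_eq {a b : ℝ} (h : (a : UnitAddCircle) = (b : UnitAddCircle)) :
    ∃ n : ℤ, a - b = n := by
  have h1 : ((a - b : ℝ) : UnitAddCircle) = 0 := by
    rw [AddCircle.coe_sub, h, sub_self]
  rw [AddCircle.coe_eq_zero_iff] at h1
  obtain ⟨n, hn⟩ := h1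
  refine ⟨n, ?_⟩
  rw [← hn]; simp

/-- a continuous integer valued function on a preconnected set is constant -/
theorem int_valued_const {α : Type*} [TopologicalSpace α] {s : Set α} (hs : IsPreconnected s)
    {f : α → ℝ} (hf : ContinuousOn f s) (hint : ∀ x ∈ s, ∃ n : ℤ, f x = n) {x y : α}
    (hx : x ∈ s) (hy : y ∈ s) : f x = f y := by
  have h1 : (f '' s).Subsingleton := by
    refine (Set.countable_range (fun n : ℤ => (n : ℝ))).isTotallyDisconnected _ ?_ (hs.image f hf)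
    rintro _ ⟨x, hx, rfl⟩
    obtain ⟨n, hn⟩ := hint x hx
    exact ⟨n, hn.symm⟩
  exact h1 ⟨x, hx, rfl⟩ ⟨y, hy, rfl⟩

/-- a lift of a map of `K` which is even on the boundary circles is even there -/
theorem even_on_circle {g : K → UnitAddCircle} {G : K → ℝ} (hG : Continuous G)
    (hGg : ∀ p, ((G p : ℝ) : UnitAddCircle) = g p)
    (hev : ∀ p : K, ‖(p : ℂ × ℂ)‖ = 1 → g ⟨-p.1, neg_mem_K p.2⟩ = g p)
    (p : K) (hp : ‖(p : ℂ × ℂ)‖ = 1) : G ⟨-p.1, neg_mem_K p.2⟩ = G p := by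
  -- rotation
  have hrot : ∀ θ : ℝ, Complex.exp (θ * Complex.I) • (p : ℂ × ℂ) ∈ K := by
    intro θ
    refine ⟨?_, ?_⟩
    · rw [norm_smul, Complex.norm_exp_ofReal_mul_I, one_mul]; exact hp.le
    · rcases p.2.2 with h | h
      · left; simp [h]
      · right; simp [h]
  let c : ℝ → K := fun θ => ⟨Complex.exp (θ * Complex.I) • (p : ℂ × ℂ), hrot θ⟩
  have hcc : Continuous c := by
    apply Continuous.subtype_mk
    fun_prop
  have hnc : ∀ θ, ‖(c θ : ℂ × ℂ)‖ = 1 := by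
    intro θ
    show ‖Complex.exp (θ * Complex.I) • (p : ℂ × ℂ)‖ = 1
    rw [norm_smul, Complex.norm_exp_ofReal_mul_I, one_mul, hp]
  have hpi : ∀ θ, c (θ + Real.pi) = ⟨-(c θ).1, neg_mem_K (c θ).2⟩ := by
    intro θ
    apply Subtype.ext
    show Complex.exp ((θ + Real.pi : ℝ) * Complex.I) • (p : ℂ × ℂ) =
      -(Complex.exp (θ * Complex.I) • (p : ℂ × ℂ))
    have : Complex.exp ((θ + Real.pi : ℝ) * Complex.I) = - Complex.exp (θ * Complex.I) := by
      push_cast
      rw [add_mul, Complex.exp_add, Complex.exp_pi_mul_I]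
      ring
    rw [this, neg_smul]
  have hc0 : c 0 = p := by
    apply Subtype.ext
    show Complex.exp ((0 : ℝ) * Complex.I) • (p : ℂ × ℂ) = p
    simp
  have hc2 : c (0 + Real.pi + Real.pi) = p := by
    rw [hpi, ← hc0]
    apply Subtype.ext
    have := hpi 0
    rw [zero_add] at this
    show -(c (0 + Real.pi)).1 = (c 0).1
    rw [hpi 0]
    simp
  let h : ℝ → ℝ := fun θ => G (c (θ + Real.pi)) - G (c θ)
  have hh : Continuous h := by fun_prop
  have hint : ∀ θ ∈ (univ : Set ℝ), ∃ n : ℤ, h θ = n := by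
    intro θ _
    apply int_of_coe_eq
    rw [hGg, hGg, hpi θ]
    exact hev _ (hnc θ)
  have e := int_valued_const isPreconnected_univ hh.continuousOn hint (mem_univ (0 : ℝ))
    (mem_univ (0 + Real.pi))
  have e1 : h 0 = G (c (0 + Real.pi)) - G p := by
    show G (c (0 + Real.pi)) - G (c 0) = _
    rw [hc0]
  have e2 : h (0 + Real.pi) = G p - G (c (0 + Real.pi)) := by
    show G (c (0 + Real.pi + Real.pi)) - G (c (0 + Real.pi)) = _
    rw [hc2]
  have e3 : G (c (0 + Real.pi)) = G p := by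
    rw [e1, e2] at e
    linarith
  rw [← e3, hpi 0]
  congr 1
  apply Subtype.ext
  show -p.1 = -(c 0).1
  rw [hc0]

/-- **even maps of `X` to the circle have even lifts to the line** -/
theorem exists_even_lift (F : X → UnitAddCircle) (hF : Continuous F)
    (hev : ∀ v : X, F ⟨-v.1, neg_mem_X v.2⟩ = F v) :
    ∃ Φ : X → ℝ, Continuous Φ ∧ (∀ v : X, Φ ⟨-v.1, neg_mem_X v.2⟩ = Φ v) ∧
      ∀ v, ((Φ v : ℝ) : UnitAddCircle) = F v := by
  let g : K → UnitAddCircle := fun p => F ⟨(1 - ‖(p : ℂ × ℂ)‖, p.1), kap_mem p.2⟩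
  have hg : Continuous g := by
    apply hF.comp
    apply Continuous.subtype_mk
    fun_prop
  obtain ⟨G, hG, hGg⟩ := exists_lift_K g hg
  have hevK : ∀ p : K, ‖(p : ℂ × ℂ)‖ = 1 → g ⟨-p.1, neg_mem_K p.2⟩ = g p := by
    intro p hp
    show F _ = F _
    rw [← hev]
    congr 1
    apply Subtype.ext
    show -(1 - ‖-(p : ℂ × ℂ)‖, -(p : ℂ × ℂ)) = (1 - ‖(p : ℂ × ℂ)‖, (p : ℂ × ℂ))
    rw [norm_neg, hp]
    ext <;> simp
  have hbd := even_on_circle hG hGg hevK
  let Φ : X → ℝ := fun v => if 0 ≤ v.1.1 then G ⟨v.1.2, snd_mem_K v.2⟩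
    else G ⟨-v.1.2, neg_mem_K (snd_mem_K v.2)⟩
  have hΦ : Continuous Φ := by
    apply Continuous.if_le
    · apply hG.comp
      apply Continuous.subtype_mk
      fun_prop
    · apply hG.comp
      apply Continuous.subtype_mk
      fun_prop
    · exact continuous_const
    · fun_prop
    · intro v hv
      symm
      apply hbd ⟨v.1.2, snd_mem_K v.2⟩
      have := v.2.1
      rw [← hv, abs_zero, zero_add] at this
      exact this
  refine ⟨Φ, hΦ, ?_, ?_⟩
  · intro v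
    rcases lt_trichotomy v.1.1 0 with h | h | h
    · have h1 : Φ v = G ⟨-v.1.2, neg_mem_K (snd_mem_K v.2)⟩ := if_neg (not_le.2 h)
      have h2 : Φ ⟨-v.1, neg_mem_X v.2⟩ = G ⟨-v.1.2, snd_mem_K (neg_mem_X v.2)⟩ := by
        apply if_pos
        show 0 ≤ -v.1.1
        linarith
      rw [h1, h2]
    · have h1 : Φ v = G ⟨v.1.2, snd_mem_K v.2⟩ := if_pos h.ge
      have h2 : Φ ⟨-v.1, neg_mem_X v.2⟩ = G ⟨-v.1.2, snd_mem_K (neg_mem_X v.2)⟩ := by
        apply if_pos
        show 0 ≤ -v.1.1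
        linarith
      rw [h1, h2]
      apply hbd ⟨v.1.2, snd_mem_K v.2⟩
      have := v.2.1
      rw [h, abs_zero, zero_add] at this
      exact this
    · have h1 : Φ v = G ⟨v.1.2, snd_mem_K v.2⟩ := if_pos h.le
      have h2 : Φ ⟨-v.1, neg_mem_X v.2⟩ =
          G ⟨-(-v.1).2, neg_mem_K (snd_mem_K (neg_mem_X v.2))⟩ := by
        apply if_neg
        show ¬ 0 ≤ -v.1.1
        linarith
      rw [h1, h2]
      congr 1
      apply Subtype.ext
      show -(-v.1.2) = v.1.2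
      rw [neg_neg]
  · intro v
    by_cases h : 0 ≤ v.1.1
    · have h1 : Φ v = G ⟨v.1.2, snd_mem_K v.2⟩ := if_pos h
      rw [h1, hGg]
      show F _ = F _
      congr 1
      apply Subtype.ext
      have := v.2.1
      rw [abs_of_nonneg h] at this
      exact Prod.ext (by show 1 - ‖v.1.2‖ = v.1.1; linarith) rfl
    · have h1 : Φ v = G ⟨-v.1.2, neg_mem_K (snd_mem_K v.2)⟩ := if_neg h
      rw [h1, hGg, ← hev v]
      show F _ = F _
      congr 1
      apply Subtype.ext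
      have := v.2.1
      rw [abs_of_neg (not_le.1 h)] at this
      exact Prod.ext (by show 1 - ‖-v.1.2‖ = -v.1.1; rw [norm_neg]; linarith) rfl

end Pool.Agent.N489.UNI
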