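import Mathlib
import Pool.Agent.N489.UNI.Lift

set_option autoImplicit false

/-!
Two spheres with two common antipodal points double cover the wedge of two projective planes.
-/

open Set Filter Topology

namespace Pool.Agent.N489.UNI

/-! ### topology of `X` -/

theorem X_isClosed : IsClosed X := by
  apply IsClosed.inter
  · exact isClosed_eq (by fun_prop) continuous_const
  · exact (isClosed_eq (by fun_prop) continuous_const).union
      (isClosed_eq (by fun_prop) continuous_const)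

theorem norm_le_one_of_mem {v : ℝ × ℂ × ℂ} (hv : v ∈ X) : ‖v‖ ≤ 1 := by
  rw [Prod.norm_def, Real.norm_eq_abs]
  have h1 := hv.1
  have h2 := abs_nonneg v.1
  have h3 := norm_nonneg v.2
  exact max_le (by linarith) (by linarith)

theorem half_le_norm_of_mem {v : ℝ × ℂ × ℂ} (hv : v ∈ X) : 1 / 2 ≤ ‖v‖ := by
  rw [Prod.norm_def, Real.norm_eq_abs]
  have h1 := hv.1
  by_contra h
  rw [not_le, max_lt_iff] at h
  linarith [h.1, h.2]

theorem X_isCompact : IsCompact X := by
  apply Metric.isCompact_of_isClosed_isBounded X_isClosed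
  apply (Metric.isBounded_closedBall (x := (0 : ℝ × ℂ × ℂ)) (r := 1)).subset
  intro v hv
  rw [mem_closedBall_zero_iff]
  exact norm_le_one_of_mem hv

instance : CompactSpace X := isCompact_iff_compactSpace.1 X_isCompact

/-- the parametrization of the first sphere -/
noncomputable def m1 (t θ : ℝ) : ℝ × ℂ × ℂ := (t, ((1 - |t| : ℝ) : ℂ) * Complex.exp (θ * Complex.I), 0)

/-- the parametrization of the second sphere -/
noncomputable def m2 (t θ : ℝ) : ℝ × ℂ × ℂ := (t, 0, ((1 - |t| : ℝ) : ℂ) * Complex.exp (θ * Complex.I))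

theorem m1_cont : Continuous (fun z : ℝ × ℝ => m1 z.1 z.2) := by
  unfold m1
  fun_prop

theorem m2_cont : Continuous (fun z : ℝ × ℝ => m2 z.1 z.2) := by
  unfold m2
  fun_prop

theorem norm_m {t : ℝ} (ht : t ∈ Icc (-1 : ℝ) 1) (θ : ℝ) :
    ‖((1 - |t| : ℝ) : ℂ) * Complex.exp (θ * Complex.I)‖ = 1 - |t| := by
  rw [norm_mul, Complex.norm_exp_ofReal_mul_I, mul_one, Complex.norm_real, Real.norm_eq_abs,
    abs_of_nonneg]
  have := abs_le.2 ht
  linarith

theorem m1_mem {t : ℝ} (ht : t ∈ Icc (-1 : ℝ) 1) (θ : ℝ) : m1 t θ ∈ X ∧ (m1 t θ).2.2 = 0 := by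
  refine ⟨⟨?_, Or.inr rfl⟩, rfl⟩
  show |t| + ‖((((1 - |t| : ℝ) : ℂ) * Complex.exp (θ * Complex.I), 0) : ℂ × ℂ)‖ = 1
  rw [Prod.norm_def]
  simp only [norm_zero]
  rw [norm_m ht, max_eq_left (by have := abs_le.2 ht; linarith)]
  ring

theorem m2_mem {t : ℝ} (ht : t ∈ Icc (-1 : ℝ) 1) (θ : ℝ) : m2 t θ ∈ X ∧ (m2 t θ).2.1 = 0 := by
  refine ⟨⟨?_, Or.inl rfl⟩, rfl⟩
  show |t| + ‖((0, ((1 - |t| : ℝ) : ℂ) * Complex.exp (θ * Complex.I)) : ℂ × ℂ)‖ = 1
  rw [Prod.norm_def]
  simp only [norm_zero]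
  rw [norm_m ht, max_eq_right (by have := abs_le.2 ht; linarith)]
  ring

theorem polar (z : ℂ) : z = ((‖z‖ : ℝ) : ℂ) * Complex.exp (Complex.arg z * Complex.I) :=
  (Complex.norm_mul_exp_arg_mul_I z).symm

theorem exists_m1 {v : ℝ × ℂ × ℂ} (hv : v ∈ X) (h : v.2.2 = 0) :
    v.1 ∈ Icc (-1 : ℝ) 1 ∧ m1 v.1 (Complex.arg v.2.1) = v := by
  have h1 := hv.1
  have h2 := abs_nonneg v.1
  have h3 := norm_nonneg v.2
  have hn : ‖v.2.1‖ = 1 - |v.1| := by
    have : ‖v.2‖ = ‖v.2.1‖ := by
      rw [Prod.norm_def, h, norm_zero, max_eq_left (norm_nonneg _)]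
    rw [← this]; linarith
  refine ⟨abs_le.1 (by linarith), ?_⟩
  have h4 := polar v.2.1
  rw [hn] at h4
  refine Prod.ext rfl (Prod.ext ?_ h.symm)
  exact h4.symm

theorem exists_m2 {v : ℝ × ℂ × ℂ} (hv : v ∈ X) (h : v.2.1 = 0) :
    v.1 ∈ Icc (-1 : ℝ) 1 ∧ m2 v.1 (Complex.arg v.2.2) = v := by
  have h1 := hv.1
  have h2 := abs_nonneg v.1
  have h3 := norm_nonneg v.2
  have hn : ‖v.2.2‖ = 1 - |v.1| := by
    have : ‖v.2‖ = ‖v.2.2‖ := by
      rw [Prod.norm_def, h, norm_zero, max_eq_right (norm_nonneg _)]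
    rw [← this]; linarith
  refine ⟨abs_le.1 (by linarith), ?_⟩
  have h4 := polar v.2.2
  rw [hn] at h4
  refine Prod.ext rfl (Prod.ext h.symm ?_)
  exact h4.symm

/-- the two spheres -/
def A1 : Set X := {v | v.1.2.2 = 0}
def A2 : Set X := {v | v.1.2.1 = 0}

theorem A1_closed : IsClosed A1 := isClosed_eq (by fun_prop) continuous_const
theorem A2_closed : IsClosed A2 := isClosed_eq (by fun_prop) continuous_const

theorem A1_union : A1 ∪ A2 = univ := by
  ext v
  simp only [mem_union, mem_univ, iff_true]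
  rcases v.2.2 with h | h
  · exact Or.inr h
  · exact Or.inl h

theorem pt_mem (s : ℝ) (hs : |s| = 1) : ((s, 0, 0) : ℝ × ℂ × ℂ) ∈ X :=
  ⟨by simp [hs], Or.inl rfl⟩

theorem A1_connected : IsConnected A1 := by
  refine ⟨⟨⟨(1, 0, 0), pt_mem 1 (by simp)⟩, rfl⟩, ?_⟩
  rw [← IsInducing.subtypeVal.isPreconnected_image]
  have h : Subtype.val '' A1 = (fun z : ℝ × ℝ => m1 z.1 z.2) '' (Icc (-1) 1 ×ˢ univ) := by
    ext v
    constructor
    · rintro ⟨v, hv, rfl⟩
      have := exists_m1 v.2 hv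
      exact ⟨(v.1.1, Complex.arg v.1.2.1), ⟨this.1, trivial⟩, this.2⟩
    · rintro ⟨z, hz, rfl⟩
      have := m1_mem hz.1 z.2
      exact ⟨⟨_, this.1⟩, this.2, rfl⟩
  rw [h]
  exact (isPreconnected_Icc.prod isPreconnected_univ).image _ m1_cont.continuousOn

theorem A2_connected : IsConnected A2 := by
  refine ⟨⟨⟨(1, 0, 0), pt_mem 1 (by simp)⟩, rfl⟩, ?_⟩
  rw [← IsInducing.subtypeVal.isPreconnected_image]
  have h : Subtype.val '' A2 = (fun z : ℝ × ℝ => m2 z.1 z.2) '' (Icc (-1) 1 ×ˢ univ) := by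
    ext v
    constructor
    · rintro ⟨v, hv, rfl⟩
      have := exists_m2 v.2 hv
      exact ⟨(v.1.1, Complex.arg v.1.2.2), ⟨this.1, trivial⟩, this.2⟩
    · rintro ⟨z, hz, rfl⟩
      have := m2_mem hz.1 z.2
      exact ⟨⟨_, this.1⟩, this.2, rfl⟩
  rw [h]
  exact (isPreconnected_Icc.prod isPreconnected_univ).image _ m2_cont.continuousOn

instance : ConnectedSpace X := by
  rw [connectedSpace_iff_univ, ← A1_union]
  refine ⟨A1_connected.nonempty.inl, ?_⟩
  exact IsPreconnected.union ⟨(1, 0, 0), pt_mem 1 (by simp)⟩ rfl rfl A1_connected.isPreconnected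
    A2_connected.isPreconnected

theorem not_connected_inter : ¬ IsConnected (A1 ∩ A2) := by
  intro h
  have h1 : IsPreconnected ((fun v : X => v.1.1) '' (A1 ∩ A2)) :=
    h.isPreconnected.image _ (by fun_prop)
  have hp : (1 : ℝ) ∈ (fun v : X => v.1.1) '' (A1 ∩ A2) :=
    ⟨⟨(1, 0, 0), pt_mem 1 (by simp)⟩, ⟨rfl, rfl⟩, rfl⟩
  have hm : (-1 : ℝ) ∈ (fun v : X => v.1.1) '' (A1 ∩ A2) :=
    ⟨⟨(-1, 0, 0), pt_mem (-1) (by simp)⟩, ⟨rfl, rfl⟩, rfl⟩
  have h0 : (0 : ℝ) ∈ (fun v : X => v.1.1) '' (A1 ∩ A2) :=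
    h1.ordConnected.out hm hp ⟨by norm_num, by norm_num⟩
  obtain ⟨v, ⟨hv1, hv2⟩, hv0⟩ := h0
  have h2 := v.2.1
  have e1 : v.1.2.2 = 0 := hv1
  have e2 : v.1.2.1 = 0 := hv2
  have e3 : v.1.1 = 0 := hv0
  rw [Prod.norm_def, e1, e2, e3] at h2
  simp at h2

theorem locPath_Icc (a b : ℝ) (h : a ≤ b) : LocallyPathConnectedSpace (Icc a b) :=
  (isQuotientMap_projIcc (h := h)).locallyPathConnectedSpace

instance : LocallyPathConnectedSpace X := by
  have h1 : LocallyPathConnectedSpace (Icc (-1 : ℝ) 1) := locPath_Icc _ _ (by norm_num)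
  have h2 : LocallyPathConnectedSpace (Icc (-Real.pi) Real.pi) :=
    locPath_Icc _ _ (by linarith [Real.pi_pos])
  let q : (Icc (-1 : ℝ) 1 × Icc (-Real.pi) Real.pi) ⊕ (Icc (-1 : ℝ) 1 × Icc (-Real.pi) Real.pi) → X :=
    Sum.elim (fun z => ⟨m1 z.1 z.2, (m1_mem z.1.2 z.2).1⟩)
      (fun z => ⟨m2 z.1 z.2, (m2_mem z.1.2 z.2).1⟩)
  have hq : Continuous q := by
    apply Continuous.sumElim
    · exact (m1_cont.comp (by fun_prop : Continuous fun z : Icc (-1 : ℝ) 1 ×
        Icc (-Real.pi) Real.pi => ((z.1 : ℝ), (z.2 : ℝ)))).subtype_mk _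
    · exact (m2_cont.comp (by fun_prop : Continuous fun z : Icc (-1 : ℝ) 1 ×
        Icc (-Real.pi) Real.pi => ((z.1 : ℝ), (z.2 : ℝ)))).subtype_mk _
  have hs : Function.Surjective q := by
    intro v
    rcases v.2.2 with h | h
    · have := exists_m2 v.2 h
      exact ⟨Sum.inr (⟨v.1.1, this.1⟩, ⟨Complex.arg v.1.2.2,
        (Complex.neg_pi_lt_arg _).le, Complex.arg_le_pi _⟩), Subtype.ext this.2⟩
    · have := exists_m1 v.2 h
      exact ⟨Sum.inl (⟨v.1.1, this.1⟩, ⟨Complex.arg v.1.2.1,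
        (Complex.neg_pi_lt_arg _).le, Complex.arg_le_pi _⟩), Subtype.ext this.2⟩
  exact (hq.isClosedMap.isQuotientMap hq hs).locallyPathConnectedSpace

/-! ### the quotient -/

/-- an even map which separates all other pairs -/
noncomputable def ver (v : ℝ × ℂ × ℂ) : ℝ × ℂ × ℂ × ℂ × ℂ :=
  (v.1 * v.1, (v.1 : ℂ) * v.2.1, (v.1 : ℂ) * v.2.2, v.2.1 * v.2.1, v.2.2 * v.2.2)

theorem ver_cont : Continuous ver := by
  unfold ver
  fun_prop

theorem ver_neg (v : ℝ × ℂ × ℂ) : ver (-v) = ver v := by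
  unfold ver
  simp

theorem ver_eq {u v : ℝ × ℂ × ℂ} (hu : u ∈ X) (hv : v ∈ X) (h : ver u = ver v) :
    u = v ∨ u = -v := by
  obtain ⟨x, z, w⟩ := u
  obtain ⟨x', z', w'⟩ := v
  simp only [ver, Prod.mk.injEq] at h
  obtain ⟨h1, h2, h3, h4, h5⟩ := h
  have hu2 : z = 0 ∨ w = 0 := hu.2
  have hv2 : z' = 0 ∨ w' = 0 := hv.2
  have hxx : x = x' ∨ x = -x' := mul_self_eq_mul_self_iff.1 h1
  have hzz : z = z' ∨ z = -z' := mul_self_eq_mul_self_iff.1 h4
  have hww : w = w' ∨ w = -w' := mul_self_eq_mul_self_iff.1 h5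
  by_cases hx : x = 0
  · have hx' : x' = 0 := by
      rcases hxx with h | h
      · rw [← h, hx]
      · linarith
    subst hx
    subst hx'
    rcases hu2 with h | h
    · subst h
      have hz' : z' = 0 := by
        rcases hzz with h | h
        · exact h.symm
        · exact neg_eq_zero.1 h.symm
      subst hz'
      rcases hww with h | h
      · left; rw [h]
      · right; rw [h]; simp
    · subst h
      have hw' : w' = 0 := by
        rcases hww with h | h
        · exact h.symm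
        · exact neg_eq_zero.1 h.symm
      subst hw'
      rcases hzz with h | h
      · left; rw [h]
      · right; rw [h]; simp
  · have hxc : (x : ℂ) ≠ 0 := by exact_mod_cast hx
    rcases hxx with h | h
    · subst h
      left
      rw [mul_left_cancel₀ hxc h2, mul_left_cancel₀ hxc h3]
    · right
      have hx' : (x' : ℂ) = -(x : ℂ) := by rw [h]; push_cast; ring
      rw [hx'] at h2 h3
      have e2 : z = -z' := mul_left_cancel₀ hxc (by rw [h2]; ring)
      have e3 : w = -w' := mul_left_cancel₀ hxc (by rw [h3]; ring)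
      rw [h, e2, e3]
      rfl

/-- the wedge of two projective planes -/
def Y : Set (ℝ × ℂ × ℂ × ℂ × ℂ) := ver '' X

/-- the double covering -/
noncomputable def f (v : X) : Y := ⟨ver v.1, v.1, v.2, rfl⟩

/-- the antipodal map -/
def ng (v : X) : X := ⟨-v.1, neg_mem_X v.2⟩

theorem ng_cont : Continuous ng := by
  apply Continuous.subtype_mk
  fun_prop

theorem f_cont : Continuous f := (ver_cont.comp continuous_subtype_val).subtype_mk _

theorem f_surj : Function.Surjective f := by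
  rintro ⟨_, v, hv, rfl⟩
  exact ⟨⟨v, hv⟩, rfl⟩

theorem f_ng (v : X) : f (ng v) = f v := Subtype.ext (ver_neg _)

theorem f_eq {u v : X} (h : f u = f v) : u = v ∨ u = ng v := by
  rcases ver_eq u.2 v.2 (congrArg Subtype.val h) with h | h
  · exact Or.inl (Subtype.ext h)
  · exact Or.inr (Subtype.ext h)

theorem f_quot : IsQuotientMap f := f_cont.isClosedMap.isQuotientMap f_cont f_surj

theorem f_open : IsOpenMap f := by
  intro U hU
  rw [← f_quot.isOpen_preimage]
  have : f ⁻¹' (f '' U) = U ∪ ng ⁻¹' U := by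
    ext v
    constructor
    · rintro ⟨u, hu, huv⟩
      rcases f_eq huv with h | h
      · left; rwa [← h]
      · right
        show ng v ∈ U
        rwa [← h]
    · rintro (h | h)
      · exact ⟨v, h, rfl⟩
      · exact ⟨ng v, h, f_ng v⟩
  rw [this]
  exact hU.union (hU.preimage ng_cont)

theorem f_local : IsLocalHomeomorph f := by
  rw [isLocalHomeomorph_iff_isOpenEmbedding_restrict]
  intro x
  refine ⟨Metric.ball x (1 / 4), Metric.ball_mem_nhds _ (by norm_num), ?_⟩
  apply IsOpenEmbedding.of_continuous_injective_isOpenMap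
  · exact f_cont.comp continuous_subtype_val
  · rintro ⟨u, hu⟩ ⟨v, hv⟩ huv
    rcases f_eq (show f u = f v from huv) with h | h
    · exact Subtype.ext h
    · exfalso
      have h1 : dist u v < 1 / 2 := by
        have := dist_triangle_right u v x
        rw [Metric.mem_ball] at hu hv
        linarith
      have h2 : dist u v = 2 * ‖v.1‖ := by
        rw [Subtype.dist_eq, dist_eq_norm, h]
        show ‖-v.1 - v.1‖ = _
        have : -v.1 - v.1 = (-2 : ℝ) • v.1 := by
          rw [neg_smul, two_smul]; abel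
        rw [this, norm_smul]
        norm_num
      have h3 := half_le_norm_of_mem v.2
      linarith
  · exact f_open.comp Metric.isOpen_ball.isOpenMap_subtype_val

instance : CompactSpace Y := isCompact_iff_compactSpace.1 (X_isCompact.image ver_cont)

instance : ConnectedSpace Y := f_surj.connectedSpace f_cont

/-! ### `Y` is unicoherent -/

theorem unicoherent (A B : Set Y) (hA : IsClosed A) (hB : IsClosed B) (hAc : IsConnected A)
    (hBc : IsConnected B) (hAB : A ∪ B = univ) : IsConnected (A ∩ B) := by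
  classical
  have hne : (A ∩ B).Nonempty := by
    have := isPreconnected_closed_iff.1 (isPreconnected_univ (α := Y)) A B hA hB
      (by rw [hAB]) (by simpa using hAc.nonempty) (by simpa using hBc.nonempty)
    simpa using this
  refine ⟨hne, ?_⟩
  by_contra hcon
  rw [isPreconnected_closed_iff] at hcon
  push Not at hcon
  obtain ⟨t, t', ht, ht', hsub, h1, h2, h3⟩ := hcon
  obtain ⟨u, hu0, hu1, hu⟩ := exists_continuous_zero_one_of_isClosed
    ((hA.inter hB).inter ht) ((hA.inter hB).inter ht') (by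
      rw [Set.disjoint_left]
      rintro x ⟨hx1, hx2⟩ ⟨_, hx3⟩
      have : x ∈ A ∩ B ∩ (t ∩ t') := ⟨hx1, hx2, hx3⟩
      rw [h3] at this
      exact this)
  have huAB : ∀ y ∈ A ∩ B, u y = 0 ∨ u y = 1 := by
    intro y hy
    rcases hsub hy with h | h
    · exact Or.inl (hu0 ⟨hy, h⟩)
    · exact Or.inr (hu1 ⟨hy, h⟩)
  have hcirc : (((1 : ℝ) / 2 : ℝ) : UnitAddCircle) = ((-((1 : ℝ) / 2) : ℝ) : UnitAddCircle) := by
    have : (((1 : ℝ) : ℝ) : UnitAddCircle) = 0 := AddCircle.coe_period 1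
    have h : ((1 : ℝ) / 2 : ℝ) = -((1 : ℝ) / 2) + 1 := by norm_num
    rw [h, AddCircle.coe_add, this, add_zero]
    norm_num
  let θ : Y → UnitAddCircle := fun y => if y ∈ A then ((u y / 2 : ℝ) : UnitAddCircle)
    else ((-(u y / 2) : ℝ) : UnitAddCircle)
  have hθA : ∀ y ∈ A, θ y = ((u y / 2 : ℝ) : UnitAddCircle) := fun y hy => if_pos hy
  have hθB : ∀ y ∈ B, θ y = ((-(u y / 2) : ℝ) : UnitAddCircle) := by
    intro y hy
    by_cases hyA : y ∈ A
    · rw [hθA y hyA]
      rcases huAB y ⟨hyA, hy⟩ with h | h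
      · rw [h]; norm_num
      · rw [h]; exact hcirc
    · exact if_neg hyA
  have hcoe : Continuous ((↑) : ℝ → UnitAddCircle) := AddCircle.continuous_mk' 1
  have hθ : Continuous θ := by
    rw [← continuousOn_univ, ← hAB]
    apply ContinuousOn.union_of_isClosed _ _ hA hB
    · apply ContinuousOn.congr (f := fun y => ((u y / 2 : ℝ) : UnitAddCircle))
      · exact (hcoe.comp (by fun_prop)).continuousOn
      · exact hθA
    · apply ContinuousOn.congr (f := fun y => ((-(u y / 2) : ℝ) : UnitAddCircle))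
      · exact (hcoe.comp (by fun_prop)).continuousOn
      · exact hθB
  obtain ⟨Φ, hΦ, hΦe, hΦF⟩ := exists_even_lift (θ ∘ f) (hθ.comp f_cont) (fun v => by
    show θ (f (ng v)) = θ (f v)
    rw [f_ng])
  let φ : Y → ℝ := fun y => Φ (f_surj y).choose
  have hφ : ∀ v, φ (f v) = Φ v := by
    intro v
    have h := (f_surj (f v)).choose_spec
    rcases f_eq h with h | h
    · show Φ _ = Φ v
      rw [h]
    · show Φ _ = Φ v
      rw [h]
      exact hΦe v
  have hφc : Continuous φ := by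
    rw [f_quot.continuous_iff]
    have : φ ∘ f = Φ := funext hφ
    rw [this]
    exact hΦ
  have hφθ : ∀ y, ((φ y : ℝ) : UnitAddCircle) = θ y := by
    intro y
    obtain ⟨v, rfl⟩ := f_surj y
    rw [hφ, hΦF]
    rfl
  obtain ⟨p, hp⟩ := h1
  obtain ⟨q, hq⟩ := h2
  have hup : u p = 0 := hu0 hp
  have huq : u q = 1 := hu1 hq
  have eA := int_valued_const hAc.isPreconnected (f := fun y => φ y - u y / 2)
    (by fun_prop) (by
      intro y hy
      exact int_of_coe_eq (by rw [hφθ, hθA y hy])) hp.1.1 hq.1.1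
  have eB := int_valued_const hBc.isPreconnected (f := fun y => φ y - (-(u y / 2)))
    (by fun_prop) (by
      intro y hy
      exact int_of_coe_eq (by rw [hφθ, hθB y hy])) hp.1.2 hq.1.2
  simp only [hup, huq] at eA eB
  linarith

end Pool.Agent.N489.UNI
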